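import Pool.Agent.Helper49.SH.Fin
import Pool.Agent.Helper24.CR.Fa

/-!
MP_274814_nt, towards Q1: for every `q > 2` the ratios `R_a = Γ (a / q) / Γ (1 - a / q)` generate a
field of transcendence degree `φ(q)/2`, and all algebraic relations between them come from
multiplicative ones.
-/

set_option autoImplicit false

namespace Pool.Agent.Results.MP_274814_nt.GammaRatiosAllLevels

open Pool.Agent.Helper24.LRDefs

/-- The real number `R_a = Γ (a / q) / Γ (1 - a / q)`. -/
noncomputable def R (q a : ℕ) : ℝ := Real.Gamma ((a : ℝ) / q) / Real.Gamma (1 - (a : ℝ) / q)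

/-- The field generated by the `R_a`, `1 ≤ a < q`. -/
noncomputable def K (q : ℕ) : IntermediateField ℚ ℂ :=
  IntermediateField.adjoin ℚ {z : ℂ | ∃ a : ℕ, 1 ≤ a ∧ a < q ∧ z = ((R q a : ℝ) : ℂ)}

/-- For every `q > 2` the field of the ratios `R_a = Γ (a / q) / Γ (1 - a / q)`, `1 ≤ a < q`, has
transcendence degree `φ(q) / 2`; a set of them is algebraically independent if and only if no product
of integer powers of them, not all exponents zero, is algebraic; and if `q` is a prime power, or if
for every prime `p ∣ q` the number `-1` is a power of `p` modulo the largest divisor of `q` prime to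
`p`, the field `F q` of the problem has transcendence degree at least `φ(q) / 2`, one less than
asked. -/
theorem result : ∀ q : ℕ, 2 < q →
    Algebra.trdeg ℚ (K q) = ((q.totient / 2 : ℕ) : Cardinal) ∧
    (∀ S : Finset ℕ, (∀ a ∈ S, 1 ≤ a ∧ a < q) →
      (AlgebraicIndependent ℚ (fun a : S => R q a) ↔
        ∀ m : ℕ → ℤ, IsAlgebraic ℚ (∏ a ∈ S, R q a ^ m a) → ∀ a ∈ S, m a = 0)) ∧
    ((IsPrimePow q ∨
      ∀ p : ℕ, p.Prime → p ∣ q → ∃ k : ℕ, (p : ZMod (q / p ^ q.factorization p)) ^ k = -1) →
        ((q.totient / 2 : ℕ) : Cardinal) ≤ Algebra.trdeg ℚ (F q)) := by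
  intro q hq
  obtain ⟨h1, h2, h3, h4, h5, h6, h7, h8⟩ :=
    Pool.Agent.Helper24.CR.main Pool.Agent.Helper49.SH.hall q hq
  refine ⟨h2, fun S hS => (h3 S hS).1, fun h => ?_⟩
  have hg : ∀ p : ℕ, p.Prime → p ∣ q → ∃ k : ℕ, (p : ZMod (q / p ^ q.factorization p)) ^ k = -1 := by
    rcases h with h | h
    · obtain ⟨p, k, hp, -, rfl⟩ := (isPrimePow_nat_iff q).1 h
      intro r hr hrq
      obtain rfl := (Nat.prime_dvd_prime_iff_eq hr hp).1 (hr.dvd_of_dvd_pow hrq)
      refine ⟨0, ?_⟩
      have h8 : r ^ k / r ^ (r ^ k).factorization r = 1 := by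
        rw [Nat.Prime.factorization_pow hr, Finsupp.single_eq_same,
          Nat.div_self (pow_pos hr.pos k)]
      rw [h8]
      exact Subsingleton.elim _ _
    · exact h
  rw [← h8.2 hg]
  exact h6

end Pool.Agent.Results.MP_274814_nt.GammaRatiosAllLevels
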