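import Pool.Agent.Helper24.GammaNeg

/-!
MP_274814_nt, the negated form of Q1: there is `q > 2` with `tr.deg F_q ≤ φ(q)/2` (`q = 14`).

The relation behind it is the classical `Γ(1/14) Γ(9/14) Γ(11/14) = 4 π^(3/2)`: in general, if `p` is
a prime divisor of `q` and `-1` is not a power of `p` modulo the `p`-free part `n` of `q`, the
multiplication formula for `p` makes the product of the `Γ(a/q)`, over the `a` coprime to `q` whose
class mod `n` is a power of `p`, an algebraic number times a power of `√π`.
-/

set_option autoImplicit false

namespace Pool.Agent.Results.MP_274814_nt.NegatedForm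

open Pool.Agent.Helper24.LRDefs

/-- The negated form of Q1. -/
theorem result : ∃ q : ℕ, 2 < q ∧
    Algebra.trdeg ℚ (F q) ≤ ((Nat.totient q / 2 : ℕ) : Cardinal) :=
  ⟨14, by norm_num, Pool.Agent.Helper24.GammaNeg.fails_14⟩

end Pool.Agent.Results.MP_274814_nt.NegatedForm
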