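import Pool.Agent.Helper49.SH.Fin
import Pool.Agent.Helper98.WS.Fn

/-!
MP_274814_nt, Q1: `π` together with the values of the Gamma function.
-/

set_option autoImplicit false

namespace Pool.Agent.Results.MP_274814_nt.PrimePowerLevels

open Pool.Agent.Helper24.LRDefs

/-- Q1 holds for all prime powers `q > 2`, except perhaps the powers of one prime `p₀`.  More
precisely there is one number `N` (`0`, which divides no level, or at least `3`) such that at the
level `q > 2` the field `Fall q` of `π` and all `Γ (a / q)` has transcendence degree `1 + φ(q) / 2` if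
`N` does not divide `q`, and `φ(q) / 2` if it does, and Q1 holds at `q` if and only if `N` does not
divide `q` and, for every prime `p ∣ q`, `-1` is a power of `p` modulo the largest divisor of `q`
prime to `p`.  Moreover `π` and `Γ (x)` are algebraically independent for all rational `x` in
`(0, 1/2)` with at most one exception (`1/6` and `1/3` counted once). -/
theorem result :
    (∃ p₀ : ℕ, ∀ p k : ℕ, p.Prime → p ≠ p₀ → 2 < p ^ k →
      ((1 + (p ^ k).totient / 2 : ℕ) : Cardinal) ≤ Algebra.trdeg ℚ (F (p ^ k))) ∧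
    (∃ N : ℕ, N ≠ 1 ∧ N ≠ 2 ∧ ∀ q : ℕ, 2 < q →
      Algebra.trdeg ℚ (Fall q) =
        ((if N ∣ q then q.totient / 2 else 1 + q.totient / 2 : ℕ) : Cardinal) ∧
      (((1 + q.totient / 2 : ℕ) : Cardinal) ≤ Algebra.trdeg ℚ (F q) ↔ ¬ N ∣ q ∧
        ∀ p : ℕ, p.Prime → p ∣ q → ∃ k : ℕ, (p : ZMod (q / p ^ q.factorization p)) ^ k = -1)) ∧
    ∀ x y : ℚ, 0 < x → x < y → y < 1 / 2 → ¬ (x = 1 / 6 ∧ y = 1 / 3) →
      AlgebraicIndependent ℚ ![Real.pi, Real.Gamma (x : ℝ)] ∨
        AlgebraicIndependent ℚ ![Real.pi, Real.Gamma (y : ℝ)] := by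
  obtain ⟨⟨N, h1, h2, h3, h4, h5, -⟩, h7⟩ :=
    Pool.Agent.Helper98.WS.main Pool.Agent.Helper49.SH.hall
  refine ⟨⟨N.minFac, fun p k hp hne hq => ?_⟩, ⟨N, h1, h2, fun q hq => ⟨?_, h5 q hq⟩⟩, h7⟩
  · refine (h5 (p ^ k) hq).2 ⟨fun hN => ?_, fun r hr hrq => ?_⟩
    · obtain ⟨j, -, rfl⟩ := (Nat.dvd_prime_pow hp).1 hN
      rcases Nat.eq_zero_or_pos j with rfl | hj
      · exact h1 (pow_zero p)
      · exact hne (by rw [Nat.Prime.pow_minFac hp hj.ne'])
    · obtain rfl := (Nat.prime_dvd_prime_iff_eq hr hp).1 (hr.dvd_of_dvd_pow hrq)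
      refine ⟨0, ?_⟩
      have h8 : r ^ k / r ^ (r ^ k).factorization r = 1 := by
        rw [Nat.Prime.factorization_pow hr, Finsupp.single_eq_same,
          Nat.div_self (pow_pos hr.pos k)]
      rw [h8]
      exact Subsingleton.elim _ _
  · by_cases hN : N ∣ q
    · rw [if_pos hN]
      exact h4 q hq hN
    · rw [if_neg hN]
      exact (h3 q hq hN).1

end Pool.Agent.Results.MP_274814_nt.PrimePowerLevels
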