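import Pool.Agent.Helper27.FES.Rare

/-!
# Exceptions to the conjecture of Lang and Rohrlich are rare

The rational numbers in `(0, 1)` with denominators `≤ Q` have about `Q ^ (2 k)` subsets of `k` elements. At most
`Q ^ (2 k - 2 + ε)` of these subsets `J` are exceptional: the conjecture says that `π` and the numbers `Γ(r)`,
`r ∈ J`, are algebraically independent, but they satisfy a polynomial relation of degree at most `m(Q)` with integer
coefficients of absolute value at most `Q ^ m(Q)`. Here `m(Q) → ∞`.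
-/

namespace Pool.Agent.Results.MP_274814_nt.RareExceptions

open MvPolynomial Filter

/-- The first Bernoulli function `x - [x] - 1/2`. -/
def B1 (x : ℚ) : ℚ := Int.fract x - 1 / 2

/-- For no integers `n_r`, `r ∈ J`, not all `0`, is `∑_r n_r B1 (u r) = 0` for all integers `u` prime to the
denominators of the elements of `J`. The conjecture of Lang and Rohrlich says (criterion of Koblitz and Ogus) that
then `π` and the numbers `Γ(r)`, `r ∈ J`, are algebraically independent. -/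
def Free (J : Finset ℚ) : Prop :=
  ∀ n : ℚ → ℤ, (∀ u : ℤ, (∀ r ∈ J, IsCoprime u (r.den : ℤ)) → ∑ r ∈ J, (n r : ℚ) * B1 (u * r) = 0) →
    ∀ r ∈ J, n r = 0

/-- The exceptional sets: the sets `J` of rational numbers in `(0, 1)` with denominators `≤ Q` which are `Free` and
for which `π` and the `Γ(r)`, `r ∈ J`, are a zero of a nonzero polynomial over `ℤ` of total degree `≤ m` with
coefficients of absolute value `≤ Q ^ m`. -/
def Exc (Q m : ℕ) : Set (Finset ℚ) :=
  {J | (∀ r ∈ J, 0 < r ∧ r < 1 ∧ r.den ≤ Q) ∧ Free J ∧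
    ∃ P : MvPolynomial (Option J) ℤ, P ≠ 0 ∧ P.totalDegree ≤ m ∧ (∀ ν, |coeff ν P| ≤ (Q : ℤ) ^ m) ∧
      aeval (fun o : Option J => o.elim (Real.pi : ℂ) (fun r => Complex.Gamma ((r : ℚ) : ℂ))) P = 0}

theorem result : ∃ m : ℕ → ℕ, Tendsto m atTop atTop ∧ ∀ ε : ℝ, 0 < ε → ∀ᶠ Q : ℕ in atTop,
    (∃ M : Finset (Finset ℚ), ∅ ∉ M ∧ (M.card : ℝ) ≤ (Q : ℝ) ^ ε ∧
      ∀ J ∈ Exc Q (m Q), J.card ≤ m Q → ∃ J' ∈ M, J' ⊆ J) ∧
    ∀ k ≤ m Q, ({J ∈ Exc Q (m Q) | J.card = k}.ncard : ℝ) ≤ (Q : ℝ) ^ (2 * (k : ℝ) - 2 + ε) :=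
  Pool.Agent.Helper27.FES.rare

end Pool.Agent.Results.MP_274814_nt.RareExceptions
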